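import Mathlib
import Pool.Agent.T9h29.CY.Fin

set_option autoImplicit false

/-!
# For almost all primes more than half of the indices of each fixed order are regular

Let `p` be an odd prime and let `n ∣ p - 1` with `(p - 1) / n` odd.  The `φ(n)` even numbers
`1 + k (p - 1) / n`, `0 < k < n`, `gcd(k, n) = 1`, are the indices of the Bernoulli numbers which belong
to the (odd) characters of order `n` modulo `p`.  The theorem says that, for every fixed `N`, almost all
primes `p` have the following property: for every such `n` with `2 < n ≤ N` more than half of the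
`φ(n)` indices are regular.  For `n = 4` and `n = 6` (where `φ(n) = 2`) this is the statement of the
files `QuarticIndices` and `SexticIndices`; all `n ≥ 8` are new.

The proof (`Pool/Agent/T9h29/CY/`), with `D = φ(n)` and `R` the ring of integers of `ℚ(ζ_n)`:

* `Hs.lean`: if `s` of the indices are irregular then `p^s` divides the norm of the half sum
  `S = ∑_{a < p/2} χ(a)`; so if `2 s ≥ D` then `∏_j |∑_{m odd} χ^j(m)/m|`, the product over the `D`
  conjugates `χ^j`, lies in the discrete set `{(π/2)^D m : m ≥ 1}` (it is positive).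
* `PiC.lean`, `Kap.lean`: by the pigeonhole principle there is `Π ≠ 0` in a degree one prime of `R`
  above `p` all of whose conjugates are `≪ p^{1/D}`, and by Stickelberger's theorem the Jacobi sums
  `J(χ, χ^i)` divide the products `∏_{t ∈ S_i} σ_t^{-1} Π`, with quotients from a finite set
  independent of `p`.
* `Gau.lean`, `Sym.lean`, `Ord.lean`, `Kf.lean`: the Gauss sum of `χ` and the `q`-th power map of a
  field of characteristic `q` give `χ(q) = τ_q · ψ_q(Π)` for all primes `q ∤ n`, `q ≠ p`, where `ψ_q` is a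
  multiplicative function of exact order `n` on `R / q` (a power residue symbol) and `τ_q` depends on the
  finitely many quotients only.
* `Box.lean`, `Zer.lean`, `Low*.lean`, `Sv.lean`, `Tw.lean`, `Cnt.lean`, `Gen.lean`: Selberg's sieve in
  `D`-dimensional boxes of `R`, twisted by the `ψ_q`: the values `χ(q)` at small `q` are independent.
* `Anti.lean`, `Alm.lean`: an anti-concentration theorem (Littlewood-Offord, Sperner) for the products
  `∏_q ∏_j |1 - χ^j(q)/q|^{-1}`.
* `Rem.lean`, `Hap.lean`: removal of the primes dividing a fixed `Q`, and the large sieve.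
-/

namespace Pool.Agent.Results.MP_a3a416_nt.FixedOrderMajority

open Filter Pool.Agent.T9h29.CY

set_option backward.isDefEq.respectTransparency false in
/-- the counting theorem for one `n` -/
theorem one_n (n : ℕ) (hn : 2 < n) (hne : Even n) (ε : ℝ) (hε : 0 < ε) :
    ∀ᶠ x : ℕ in atTop, (Nat.card {p : ℕ | p ≤ x ∧ (p.Prime ∧ p % (2 * n) = (1 + n) % (2 * n)) ∧
      n.totient ≤ 2 * (Bk n p).card} : ℝ) ≤ ε * (x / Real.log x) := by
  have : NeZero n := ⟨by omega⟩
  obtain ⟨h, hh⟩ := hne
  have h1 : IsCyclotomicExtension {n} ℚ (CyclotomicField n ℚ) := inferInstance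
  exact cyc_count (cyc n (CyclotomicField n ℚ)) h (by omega) (by omega) ε hε

/-- Fix `N`.  For almost all primes `p` the following holds for all `n` with `2 < n ≤ N`, `n ∣ p - 1`
and `(p - 1) / n` odd: of the `φ(n)` numbers `k < n` prime to `n`, fewer than half are such that `p`
divides the numerator of the Bernoulli number `B_{1 + k (p - 1) / n}`.  Precisely: for every `ε > 0` and
all large `x` the number of primes `p ≤ x` without this property is at most `ε x / log x`. -/
theorem result (N : ℕ) (ε : ℝ) (hε : 0 < ε) :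
    ∀ᶠ x : ℕ in atTop,
      (Nat.card {p : ℕ | p ≤ x ∧ p.Prime ∧ ∃ n : ℕ, 2 < n ∧ n ≤ N ∧ n ∣ p - 1 ∧ Odd ((p - 1) / n) ∧
        n.totient ≤ 2 * Nat.card {k : ℕ | k < n ∧ k.Coprime n ∧
          (p : ℤ) ∣ (bernoulli (1 + k * ((p - 1) / n))).num}} : ℝ) ≤ ε * (x / Real.log x) := by
  classical
  have hcard : ∀ n p : ℕ, Nat.card {k : ℕ | k < n ∧ k.Coprime n ∧
      (p : ℤ) ∣ (bernoulli (1 + k * ((p - 1) / n))).num} = (Bk n p).card := by
    intro n p
    rw [Nat.card_coe_set_eq, ← Set.ncard_coe_finset]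
    congr 1
    ext k
    unfold Bk
    simp only [Set.mem_ofPred_eq, Finset.coe_filter, Finset.mem_range]
  set S : ℕ → ℕ → Prop := fun n p => (p.Prime ∧ p % (2 * n) = (1 + n) % (2 * n)) ∧
      n.totient ≤ 2 * (Bk n p).card with hS
  set Ns : Finset ℕ := (Finset.range (N + 1)).filter (fun n => 2 < n ∧ Even n) with hNs
  have hall : ∀ᶠ x : ℕ in atTop, ∀ n ∈ Ns,
      (Nat.card {p : ℕ | p ≤ x ∧ S n p} : ℝ) ≤ (ε / (Ns.card + 1)) * (x / Real.log x) := by
    rw [Filter.eventually_all_finset]
    intro n hn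
    rw [hNs, Finset.mem_filter] at hn
    exact one_n n hn.2.1 hn.2.2 _ (by positivity)
  filter_upwards [hall, Pool.Agent.R361.AC.tendsto_log_nat.eventually_ge_atTop 1] with x hx hx1
  have hxl : 0 ≤ (x : ℝ) / Real.log x := by positivity
  rw [card_le_filter x (fun p => p.Prime ∧ ∃ n : ℕ, 2 < n ∧ n ≤ N ∧ n ∣ p - 1 ∧ Odd ((p - 1) / n) ∧
        n.totient ≤ 2 * Nat.card {k : ℕ | k < n ∧ k.Coprime n ∧
          (p : ℤ) ∣ (bernoulli (1 + k * ((p - 1) / n))).num})]
  have hsub : (Finset.range (x + 1)).filter (fun p => p.Prime ∧ ∃ n : ℕ, 2 < n ∧ n ≤ N ∧ n ∣ p - 1 ∧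
      Odd ((p - 1) / n) ∧ n.totient ≤ 2 * Nat.card {k : ℕ | k < n ∧ k.Coprime n ∧
        (p : ℤ) ∣ (bernoulli (1 + k * ((p - 1) / n))).num}) ⊆
      Ns.biUnion (fun n => (Finset.range (x + 1)).filter (S n)) := by
    intro p hp
    rw [Finset.mem_filter] at hp
    obtain ⟨hpx, hpp, n, hn2, hnN, ⟨m, hm⟩, hodd, hB⟩ := hp
    have hp2 := hpp.two_le
    have hmq : (p - 1) / n = m := by
      rw [hm]; exact Nat.mul_div_cancel_left _ (by omega)
    rw [hmq] at hodd
    obtain ⟨l, hl⟩ := hodd
    have hpodd : p % 2 = 1 := by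
      rcases hpp.eq_two_or_odd with h | h
      · exfalso
        rw [h, hl] at hm
        have h1 : n * 1 ≤ n * (2 * l + 1) := Nat.mul_le_mul_left n (by omega)
        omega
      · exact h
    have hneven : Even n := by
      rw [Nat.even_iff]
      by_contra hcon
      have h1 : (n * m) % 2 = 1 := by
        rw [Nat.mul_mod, show n % 2 = 1 by omega, show m % 2 = 1 by omega]
      omega
    rw [Finset.mem_biUnion]
    refine ⟨n, ?_, ?_⟩
    · rw [hNs, Finset.mem_filter, Finset.mem_range]
      exact ⟨by omega, hn2, hneven⟩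
    · rw [Finset.mem_filter]
      refine ⟨hpx, ⟨hpp, ?_⟩, ?_⟩
      · have h1 : p = (1 + n) + (2 * n) * l := by
          have h2 : n * (2 * l + 1) = 2 * n * l + n := by ring
          rw [hl, h2] at hm
          omega
        rw [h1, Nat.add_mul_mod_self_left]
      · rw [hcard] at hB
        exact hB
  have h1 : ((((Finset.range (x + 1)).filter (fun p => p.Prime ∧ ∃ n : ℕ, 2 < n ∧ n ≤ N ∧
      n ∣ p - 1 ∧ Odd ((p - 1) / n) ∧ n.totient ≤ 2 * Nat.card {k : ℕ | k < n ∧ k.Coprime n ∧
        (p : ℤ) ∣ (bernoulli (1 + k * ((p - 1) / n))).num})).card : ℕ) : ℝ) ≤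
      ∑ n ∈ Ns, (((Finset.range (x + 1)).filter (S n)).card : ℝ) := by
    have h2 := (Finset.card_le_card hsub).trans Finset.card_biUnion_le
    exact_mod_cast h2
  refine h1.trans ?_
  have h2 : ∑ n ∈ Ns, (((Finset.range (x + 1)).filter (S n)).card : ℝ) ≤
      Ns.card • ((ε / (Ns.card + 1)) * (x / Real.log x)) := by
    apply Finset.sum_le_card_nsmul
    intro n hn
    have h3 := hx n hn
    rw [card_le_filter x (S n)] at h3
    exact h3
  refine h2.trans ?_
  rw [nsmul_eq_mul, ← mul_assoc]
  apply mul_le_mul_of_nonneg_right _ hxl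
  rw [← mul_div_assoc, div_le_iff₀ (by positivity)]
  have : (0 : ℝ) ≤ Ns.card := Nat.cast_nonneg _
  nlinarith

end Pool.Agent.Results.MP_a3a416_nt.FixedOrderMajority
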