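import Mathlib
import Pool.Agent.T9h59.SR.Final2
import Pool.Agent.T9h59.SR.Final3
import Pool.Agent.T9h46.SR.D1
import Pool.Agent.T9h46.SR.D3
import Pool.Agent.T9h85.SR.D2
import Pool.Agent.T9h93.SR.T1
import Pool.Agent.T9h51.SR.T6

/-!
# All but `O(√K)` of the numbers up to `K` are sums of three regular indices

Call `i`, `1 ≤ i ≤ (p - 3) / 2`, a regular index of the prime `p` if `p` does not divide the numerator of
`B_{2i}`.  There is an absolute constant `A` such that for all primes `p` and all `K ≤ (p - 3) / 2` all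
but at most `A √K` of the numbers `k ≤ K` are sums of three regular indices.  For all large `p` all `k`
with `4 ≤ k ≤ (p - 3) / 2` are sums of four regular indices, in at least `k² / 30` ways.

Outline.  Let `F(x) = ∑ B_{2i} x^{2i} / (2i)!`, that is `(x/2) coth (x/2)`.  Modulo `p`, the exponents up to
`2K` of the products `F(ex) F(bx) F(b'x)` are `2 (i + j + l)`, where `i`, `j`, `l` are regular indices or `0`.
Let `b`, `b' < e ≤ C` be prime to `e` and `gcd (b, b') ≤ G`, where `G² ≥ C / 2`.  A combination of these
functions with `G < e ≤ C` is `x³` times a rational function of `t = e^x` whose denominator divides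
`(t-1)³ ∏_{2 ≤ f ≤ C} Φ_f(t) ∏_{2 ≤ f ≤ G} Φ_f(t)`; if `C` is such that its degree is less than `2K - 1` and
if the combination vanishes modulo `(p, x^(2K+2))`, then it is `0`, so for the largest `e` which occurs
the residues at the primitive `e`-th roots of unity `ζ` vanish (`Core3.lean`).  They are combinations of
the products of two cotangents `(ζ^b + 1) / (ζ^b - 1)`.

For given `b`, `b'` the numbers `gcd (b, b')` and `gcd (b, e - b')` are coprime divisors of `b < e / 2`, so one
of them is at most `G`: all products of two cotangents occur.  The translates of the cotangent span a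
space `U` of odd functions on `(ℤ/e)^*` modulo `p`, and `dim U > φ(e) / 4` for all large `p` by the estimate
for the relations modulo `p` in the file `SumsOfTwoRegular` of this problem (`P7.lean`, `Final3.lean`,
`T9h93/SR/T1.lean`).  It is spanned by characters, more than half of the odd ones, and so each even
character is a product of two of them (`T9h85/SR/D2.lean`): the products span ALL even functions,
without any loss (`T9h46/SR/D1.lean`, `D3.lean`).  So at least `∑_{G < e ≤ C} φ(e) / 2 = K - O(√K)` numbers up to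
`K` are sums `i + j + l` as above (`Count3.lean`), and they are sums of three regular indices if they are
at least `3` (`T9h51/SR/T6.lean`, with the file `SumsOfRegularIndices` of this problem).

For the second part, more than `k/4` numbers `s` between `k/10` and `9k/10` are such that `s` and `k - s` are
sums of two regular indices, and then they have about `(2/3) √s` and `(2/3) √(k - s)` such representations
(`T9h29/NR/Pairs.lean`, `Final2.lean`); for small `k` all indices up to `k` are regular.
-/

set_option autoImplicit false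

namespace Pool.Agent.Results.MP_a3a416_nt.SumsOfThreeRegular

/-- (1) There is a constant `A` such that for all primes `p` and all `K` with `2K ≤ p - 3` at most `A √K` of
the `k`, `1 ≤ k ≤ K`, are not of the form `k = i + j + l` with `i, j, l ≥ 1` such that `p` divides none
of the numerators of `B_{2i}`, `B_{2j}`, `B_{2l}`.
(2) For all sufficiently large primes `p` each `k` with `4 ≤ k ≤ (p - 3) / 2` has at least `k² / 30`
representations as an ordered sum of four such indices. -/
theorem result : (∃ A : ℝ, ∀ p : ℕ, p.Prime → ∀ K : ℕ, 2 * K + 3 ≤ p →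
    ({k : ℕ | 1 ≤ k ∧ k ≤ K ∧ ¬ ∃ i j l : ℕ, 1 ≤ i ∧ 1 ≤ j ∧ 1 ≤ l ∧ i + j + l = k ∧
      ¬ ((p : ℤ) ∣ (bernoulli (2 * i)).num) ∧ ¬ ((p : ℤ) ∣ (bernoulli (2 * j)).num) ∧
      ¬ ((p : ℤ) ∣ (bernoulli (2 * l)).num)}.ncard : ℝ) ≤ A * Real.sqrt K) ∧
    (∃ P : ℕ, ∀ p : ℕ, p.Prime → P ≤ p → ∀ k : ℕ, 4 ≤ k → 2 * k + 3 ≤ p →
      (k : ℝ) ^ 2 / 30 ≤ ({x : Fin 4 → ℕ | (∀ i, 1 ≤ x i ∧ ¬ ((p : ℤ) ∣ (bernoulli (2 * x i)).num)) ∧
        ∑ i, x i = k}.ncard : ℝ)) := by
  constructor
  · exact Pool.Agent.T9h59.SR.three
      (Pool.Agent.T9h46.SR.stD3 Pool.Agent.T9h46.SR.stD1 Pool.Agent.T9h85.SR.stD2)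
      Pool.Agent.T9h93.SR.stT1 Pool.Agent.T9h51.SR.stT6
  · obtain ⟨k₀, h⟩ := Pool.Agent.T9h59.SR.quad_large
    obtain ⟨P, hP⟩ := Pool.Agent.T9h59.SR.small_regular k₀
    refine ⟨P, fun p hp hpP k hk hkp => ?_⟩
    have : Fact p.Prime := ⟨hp⟩
    have h1 : (k : ℝ) ^ 2 / 30 ≤ (Pool.Agent.T9h59.SR.Quad p k).card := by
      rcases Nat.lt_or_ge k k₀ with h2 | h2
      · exact Pool.Agent.T9h59.SR.quad_small p k hk (fun i h3 h4 => hP p hpP i h3 (by omega))
      · exact h p k h2 hkp
    refine h1.trans (le_of_eq ?_)
    rw [← Set.ncard_coe_finset]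
    congr 2
    ext x
    rw [Finset.mem_coe, Pool.Agent.T9h59.SR.mem_Quad]
    exact Iff.rfl

end Pool.Agent.Results.MP_a3a416_nt.SumsOfThreeRegular
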