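import Mathlib
import Pool.Agent.T9h59.SR.Final2

/-!
# At least three quarters of the numbers are sums of two regular indices

Call `i`, `1 ≤ i ≤ (p - 3) / 2`, a regular index of the prime `p` if `p` does not divide the numerator of
`B_{2i}`.  For all `ε > 0` there is `K₀` such that for all primes `p` and all `K` with
`K₀ ≤ K ≤ (p - 3) / 2` at least `(1 - log K / (4 log p) - ε) K` of the numbers `k ≤ K` are sums of two
regular indices.  As `K < p`, this is more than `(3/4 - ε) K` for all these `K`, and more than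
`(1 - 2ε) K` if `K ≤ p^(4ε)`.

Outline.  Let `F(x) = ∑ B_{2i} x^{2i} / (2i)!`, that is `(x/2) coth (x/2)`.  Modulo `p`, the exponents up
to `2K` of the products `F(ex) F(bx)` are `2 (i + j)`, where `i`, `j` are regular indices or `0`.  Let `C`
be maximal with `∑_{f ≤ C} φ(f) + 2 ≤ 2K`.  A combination over `F_p` of the functions `F(ex) F(bx)`,
`3 ≤ e ≤ C`, `0 < b < e/2`, `(b, e) = 1`, is `x²` times a rational function of `t = e^x` whose
denominator divides `(t-1)² ∏_{2 ≤ f ≤ C} Φ_f(t)`, a polynomial of degree less than `2K`; if it vanishes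
to the order `2K` then it is `0`, so for the largest `e` which occurs the residues at the primitive
`e`-th roots of unity vanish (`Core.lean`).  These are sums `∑_b l_b (ζ^b + 1) / (ζ^b - 1)`.  So `K` minus the
number of the sums `i + j ≤ K` is at most about `∑_e k_e`, where `k_e` is the number of independent
relations modulo `p` between the cotangents of level `e` (`Count2.lean`).  For even `e` the cotangent
`(z + 1) / (z - 1)`, and for odd `e` the tangent `(z - 1) / (z + 1)`, is a combination of the powers of `z`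
with coefficients `0, 1, -1`; together with the vectors of the ideal of `ℤ[C_e]` vanishing at the
primitive roots they give an integral matrix with rows which are independent over `ℚ`, by the linear
independence of the cotangents (equivalent to `L(1, χ) ≠ 0` for odd `χ` modulo `e`), and `p^(k_e)`
divides a nonzero minor, which is at most `√e^(φ(e)/2) ∏_{ℓ | e} √ℓ^(e/ℓ)` by Hadamard's inequality
(`P7.lean`, `T9h69/SR`, `T9h71/SR`, `T9h75/SR`, `T9h85/SR`).  So `∑ k_e log p` is at most about `(K / 4) log K`
(`Asym2.lean`).  Regular indices `k ≥ 2` are sums of two regular indices by the file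
`SumsOfRegularIndices` of this problem (`T9h80/SR/Q3.lean`).
-/

set_option autoImplicit false

namespace Pool.Agent.Results.MP_a3a416_nt.SumsOfTwoRegular

/-- For all `ε > 0` there is `K₀` such that for all primes `p` and all `K ≥ K₀` with `2K ≤ p - 3` at least
`(1 - log K / (4 log p) - ε) K` of the `k`, `1 ≤ k ≤ K`, are of the form `k = i + j` with `i, j ≥ 1` such
that `p` divides neither the numerator of `B_{2i}` nor the numerator of `B_{2j}`. -/
theorem result (ε : ℝ) (hε : 0 < ε) : ∃ K₀ : ℕ, ∀ p : ℕ, p.Prime → ∀ K : ℕ, K₀ ≤ K → 2 * K + 3 ≤ p →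
    (1 - Real.log K / (4 * Real.log p) - ε) * K ≤
      ({k : ℕ | 1 ≤ k ∧ k ≤ K ∧ ∃ i j : ℕ, 1 ≤ i ∧ 1 ≤ j ∧ i + j = k ∧
        ¬ ((p : ℤ) ∣ (bernoulli (2 * i)).num) ∧ ¬ ((p : ℤ) ∣ (bernoulli (2 * j)).num)}.ncard : ℝ) := by
  obtain ⟨K₀, h⟩ := Pool.Agent.T9h59.SR.sums_ge2 ε hε
  refine ⟨K₀, fun p hp K hK hKp => ?_⟩
  have : Fact p.Prime := ⟨hp⟩
  refine (h p K hK hKp).trans (le_of_eq ?_)
  rw [← Set.ncard_coe_finset]
  congr 2
  ext k
  rw [Finset.mem_coe, Pool.Agent.T9h80.SR.mem_Sums, and_assoc]
  exact Iff.rfl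

end Pool.Agent.Results.MP_a3a416_nt.SumsOfTwoRegular
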