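import Mathlib
import Pool.Agent.T9h59.SR.Final2

/-!
# At least `K^(3/4) / 2` of the first `K` even Bernoulli numbers are prime to `p`

Call `i`, `1 ≤ i ≤ (p - 3) / 2`, a regular index of the prime `p` if `p` does not divide the numerator of
`B_{2i}`.  There is an absolute constant `K₀` such that for all primes `p` and all `K` with
`K₀ ≤ K ≤ (p - 3) / 2` the number `N(K)` of regular indices `≤ K` is at least `K^(3/4) / 2`.

(a) At least `(3/4 - ε) K` of the numbers `k ≤ K` are sums of two regular indices: see the file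
`SumsOfTwoRegular` of this problem for the outline of the proof.

(b) Each such `k` has more than `(2/3) √k - 1` representations (`T9h29/NR/Pairs.lean`, helper29, and the
file `SumsOfRegularIndices` of this problem).  The sum over `k` gives `N(K)^2 ≥ K^(3/2) / 4`
(`T9h80/SR/Q4.lean`, `T9h59/SR/Final2.lean`).
-/

set_option autoImplicit false

namespace Pool.Agent.Results.MP_a3a416_nt.ThreeQuartersCount

/-- There is `K₀` such that for all primes `p` and all `K ≥ K₀` with `2K ≤ p - 3`, the number of the `m`,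
`1 ≤ m ≤ K`, such that `p` does not divide the numerator of the Bernoulli number `B_{2m}` is at least
`K^(3/4) / 2`. -/
theorem result : ∃ K₀ : ℕ, ∀ p : ℕ, p.Prime → ∀ K : ℕ, K₀ ≤ K → 2 * K + 3 ≤ p →
    (K : ℝ) ^ (3 / 4 : ℝ) ≤ 2 * ((Finset.Icc 1 K).filter
      (fun m : ℕ => ¬ ((p : ℤ) ∣ (bernoulli (2 * m)).num))).card := by
  obtain ⟨K₀, h⟩ := Pool.Agent.T9h59.SR.reg_ge2
  refine ⟨K₀, fun p hp K hK hKp => ?_⟩
  have : Fact p.Prime := ⟨hp⟩
  exact h p K hK hKp

end Pool.Agent.Results.MP_a3a416_nt.ThreeQuartersCount
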